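import Mathlib

namespace Pool.Agent.Results.MP_1231ed_gt.SquareRoot

/-- the rationals with the distance of `√2 ℚ` -/
def B : Type := ℚ

lemma inj : Function.Injective (fun q : ℚ => Real.sqrt 2 * (q : ℝ)) := by
  intro a b h
  have h2 : Real.sqrt 2 ≠ 0 := by positivity
  have := mul_left_cancel₀ h2 h
  exact_mod_cast this

noncomputable instance : MetricSpace B := MetricSpace.induced (fun q : ℚ => Real.sqrt 2 * (q : ℝ)) inj inferInstance

lemma distB (a b : ℚ) : @dist B _ a b = |Real.sqrt 2 * (a : ℝ) - Real.sqrt 2 * (b : ℝ)| := rfl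

def e0 : (ℚ × ℚ) ≃ (ℚ × ℚ) where
  toFun := fun p => ((p.1 + p.2) / 2, (p.1 - p.2) / 2)
  invFun := fun p => (p.1 + p.2, p.1 - p.2)
  left_inv := by
    intro p
    apply Prod.ext
    · change (p.1 + p.2) / 2 + (p.1 - p.2) / 2 = p.1
      ring
    · change (p.1 + p.2) / 2 - (p.1 - p.2) / 2 = p.2
      ring
  right_inv := by
    rintro ⟨a, b⟩
    apply Prod.ext
    · change ((a + b) + (a - b)) / 2 = a
      ring
    · change ((a + b) - (a - b)) / 2 = b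
      ring

def e : (ℚ × ℚ) ≃ (B × B) := e0

/-- Isometry of the squares does not imply isometry. -/
theorem result :
    ¬ (∀ (A B : Type) [MetricSpace A] [MetricSpace B],
      (∃ φ : (A × A) ≃ (B × B), ∀ p q : A × A,
        Real.sqrt (dist (φ p).1 (φ q).1 ^ 2 + dist (φ p).2 (φ q).2 ^ 2) =
          Real.sqrt (dist p.1 q.1 ^ 2 + dist p.2 q.2 ^ 2)) →
      ∃ f : A ≃ B, ∀ x y : A, dist (f x) (f y) = dist x y) := by
  intro h
  have hmain := h ℚ B ⟨e, ?_⟩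
  · obtain ⟨f, hf⟩ := hmain
    have h1 := hf 0 1
    obtain ⟨a, ha⟩ : ∃ a : ℚ, f 0 = a := ⟨f 0, rfl⟩
    obtain ⟨b, hb⟩ : ∃ b : ℚ, f 1 = b := ⟨f 1, rfl⟩
    have h2 : dist (f 0) (f 1) = |Real.sqrt 2 * (a : ℝ) - Real.sqrt 2 * (b : ℝ)| := by
      rw [ha, hb]; rfl
    have h3 : dist (0 : ℚ) 1 = 1 := by
      rw [Rat.dist_eq]; norm_num
    rw [h2, h3, ← mul_sub, abs_mul, abs_of_pos (by positivity : 0 < Real.sqrt 2)] at h1
    have hirr := irrational_sqrt_two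
    apply hirr
    have h4 : |((a : ℝ) - (b : ℝ))| ≠ 0 := by
      intro h0; rw [h0] at h1; norm_num at h1
    refine ⟨1 / |a - b|, ?_⟩
    push_cast
    rw [div_eq_iff h4]
    exact h1.symm
  · intro p q
    congr 1
    have h1 : dist (e p).1 (e q).1 = |Real.sqrt 2 * (((p.1 + p.2) / 2 : ℚ) : ℝ) - Real.sqrt 2 * (((q.1 + q.2) / 2 : ℚ) : ℝ)| := rfl
    have h2 : dist (e p).2 (e q).2 = |Real.sqrt 2 * (((p.1 - p.2) / 2 : ℚ) : ℝ) - Real.sqrt 2 * (((q.1 - q.2) / 2 : ℚ) : ℝ)| := rfl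
    rw [h1, h2, Rat.dist_eq, Rat.dist_eq, sq_abs, sq_abs, sq_abs, sq_abs]
    push_cast
    have h3 : Real.sqrt 2 ^ 2 = 2 := Real.sq_sqrt (by norm_num)
    linear_combination (((((p.1 : ℝ) + p.2) / 2 - ((q.1 : ℝ) + q.2) / 2) ^ 2) + ((((p.1 : ℝ) - p.2) / 2 - ((q.1 : ℝ) - q.2) / 2) ^ 2)) * h3

end Pool.Agent.Results.MP_1231ed_gt.SquareRoot
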